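import Mathlib

/-!
# Cycles from sequences
-/

set_option autoImplicit false

namespace Pool.Agent.Y384.EC

open SimpleGraph

variable {V : Type*}

/-- `f 0, …, f (n - 1)` are the vertices of a path. -/
def Seq (G : SimpleGraph V) (f : ℕ → V) (n : ℕ) : Prop :=
  (∀ i, i + 1 < n → G.Adj (f i) (f (i + 1))) ∧ (∀ i < n, ∀ j < n, f i = f j → i = j)

/-- First `f 0, …, f (n - 1)`, then `g 0, g 1, …`. -/
def app (f : ℕ → V) (n : ℕ) (g : ℕ → V) (i : ℕ) : V := if i < n then f i else g (i - n)

/-- `f (n - 1), …, f 0` -/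
def rv (f : ℕ → V) (n : ℕ) (i : ℕ) : V := f (n - 1 - i)

theorem Seq.rv {G : SimpleGraph V} {f : ℕ → V} {n : ℕ} (h : Seq G f n) : Seq G (rv f n) n := by
  refine ⟨fun i hi => ?_, fun i hi j hj hij => ?_⟩
  · have := h.1 (n - 1 - (i + 1)) (by omega)
    rw [show n - 1 - (i + 1) + 1 = n - 1 - i by omega] at this
    exact this.symm
  · have := h.2 _ (by omega) _ (by omega) hij
    omega

theorem Seq.app {G : SimpleGraph V} {f g : ℕ → V} {n m : ℕ} (hf : Seq G f n) (hg : Seq G g m)
    (hn : 1 ≤ n) (hfg : G.Adj (f (n - 1)) (g 0)) (hd : ∀ i < n, ∀ j < m, f i ≠ g j) :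
    Seq G (app f n g) (n + m) := by
  refine ⟨fun i hi => ?_, fun i hi j hj hij => ?_⟩
  · unfold EC.app
    rcases lt_trichotomy (i + 1) n with h | h | h
    · rw [if_pos (by omega), if_pos h]
      exact hf.1 i h
    · rw [if_pos (by omega), if_neg (by omega), h, Nat.sub_self, show i = n - 1 by omega]
      exact hfg
    · rw [if_neg (by omega), if_neg (by omega), show i + 1 - n = i - n + 1 by omega]
      exact hg.1 _ (by omega)
  · unfold EC.app at hij
    by_cases h1 : i < n
    · by_cases h2 : j < n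
      · rw [if_pos h1, if_pos h2] at hij
        exact hf.2 i h1 j h2 hij
      · rw [if_pos h1, if_neg h2] at hij
        exact absurd hij (hd i h1 _ (by omega))
    · by_cases h2 : j < n
      · rw [if_neg h1, if_pos h2] at hij
        exact absurd hij.symm (hd j h2 _ (by omega))
      · rw [if_neg h1, if_neg h2] at hij
        have := hg.2 _ (by omega) _ (by omega) hij
        omega

theorem app_ne {f g : ℕ → V} {n m : ℕ} {z : V} (hf : ∀ i < n, f i ≠ z) (hg : ∀ i < m, g i ≠ z) :
    ∀ i < n + m, app f n g i ≠ z := by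
  intro i hi
  unfold app
  by_cases h : i < n
  · rw [if_pos h]
    exact hf i h
  · rw [if_neg h]
    exact hg _ (by omega)

theorem cycle_of_seq {G : SimpleGraph V} {f : ℕ → V} {n : ℕ} (hf : Seq G f n) (hn : 3 ≤ n)
    (hc : G.Adj (f (n - 1)) (f 0)) : cycleGraph n ⊑ G := by
  have key : ∀ u v : Fin n, (u - v).val = 1 → G.Adj (f u) (f v) := by
    intro u v h
    rw [Fin.sub_def] at h
    simp only at h
    have hu := u.2
    have hv := v.2
    rcases Nat.lt_or_ge (n - v.val + u.val) n with h1 | h1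
    · rw [Nat.mod_eq_of_lt h1] at h
      have h2 : v.val = n - 1 := by omega
      have h3 : u.val = 0 := by omega
      rw [h2, h3]
      exact hc.symm
    · rw [Nat.mod_eq_sub_mod h1, Nat.mod_eq_of_lt (by omega)] at h
      have h2 : u.val = v.val + 1 := by omega
      rw [h2]
      exact (hf.1 _ (by omega)).symm
  refine ⟨⟨⟨fun i : Fin n => f i, ?_⟩, ?_⟩⟩
  · intro u v huv
    rw [cycleGraph_adj'] at huv
    rcases huv with h | h
    · exact key u v h
    · exact (key v u h).symm
  · intro u v huv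
    exact Fin.ext (hf.2 _ u.2 _ v.2 huv)

end Pool.Agent.Y384.EC
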