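import Pool.Agent.Y384.EC.Cyc

/-!
# Two kinds of cycles
-/

set_option autoImplicit false

namespace Pool.Agent.Y384.EC

open SimpleGraph

variable {V : Type*}

theorem Seq.take {G : SimpleGraph V} {f : ℕ → V} {n m : ℕ} (h : Seq G f n) (hm : m ≤ n) :
    Seq G f m :=
  ⟨fun i hi => h.1 i (by omega), fun i hi j hj hij => h.2 i (by omega) j (by omega) hij⟩

theorem Seq.drop {G : SimpleGraph V} {f : ℕ → V} {n m : ℕ} (h : Seq G f (n + 1)) (hm : m ≤ n) :
    Seq G (fun i => f (i + 1)) m :=
  ⟨fun i hi => h.1 (i + 1) (by omega), fun i hi j hj hij => by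
    have := h.2 (i + 1) (by omega) (j + 1) (by omega) hij
    omega⟩

/-- A path `a 0, …, a m` whose ends are joined to `b` by paths of length `j`. -/
theorem fan_cycle {G : SimpleGraph V} {a w0 wm : ℕ → V} {j m : ℕ} {b : V} (hj : 1 ≤ j)
    (hm : 1 ≤ m) (ha : Seq G a (m + 1)) (h0 : Seq G w0 (j + 1)) (h00 : w0 0 = a 0)
    (h0b : w0 j = b) (h1 : Seq G wm (j + 1)) (h10 : wm 0 = a m) (h1b : wm j = b)
    (hd : ∀ i < j, ∀ i' < j, w0 i ≠ wm i') (hab : ∀ i ≤ m, a i ≠ b)
    (ha0 : ∀ i, 1 ≤ i → i ≤ m → ∀ i' < j, a i ≠ w0 i')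
    (ham : ∀ i < m, ∀ i' < j, a i ≠ wm i') : cycleGraph (2 * j + m) ⊑ G := by
  have s1 : Seq G (rv w0 j) j := (h0.take (by omega)).rv
  have s2 : Seq G (fun i => a (i + 1)) m := ha.drop le_rfl
  have s3 : Seq G (fun i => wm (i + 1)) j := h1.drop le_rfl
  have s12 : Seq G (app (rv w0 j) j (fun i => a (i + 1))) (j + m) := by
    refine s1.app s2 hj ?_ ?_
    · unfold rv
      rw [Nat.sub_self, h00]
      exact ha.1 0 (by omega)
    · intro i hi i' hi'
      unfold rv
      exact (ha0 (i' + 1) (by omega) (by omega) _ (by omega)).symm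
  have s : Seq G (app (app (rv w0 j) j (fun i => a (i + 1))) (j + m) (fun i => wm (i + 1)))
      (j + m + j) := by
    refine s12.app s3 (by omega) ?_ ?_
    · unfold app
      rw [if_neg (by omega)]
      beta_reduce
      rw [show j + m - 1 - j + 1 = m by omega, ← h10]
      exact h1.1 0 (by omega)
    · intro i hi i' hi'
      refine app_ne (m := m) ?_ ?_ i hi
      · intro i hi
        unfold rv
        rcases Nat.lt_or_ge (i' + 1) j with h | h
        · exact hd _ (by omega) _ h
        · rw [show i' + 1 = j by omega, h1b, ← h0b]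
          intro h
          have := h0.2 _ (by omega) _ (by omega) h
          omega
      · intro i hi
        rcases Nat.lt_or_ge (i' + 1) j with h | h
        · rcases Nat.lt_or_ge (i + 1) m with h2 | h2
          · exact ham _ h2 _ h
          · rw [show i + 1 = m by omega, ← h10]
            intro h
            have := h1.2 _ (by omega) _ (by omega) h
            omega
        · rw [show i' + 1 = j by omega, h1b]
          exact hab _ (by omega)
  have := cycle_of_seq s (by omega) (by
    unfold app rv
    rw [if_neg (by omega), if_pos (by omega), if_pos (by omega)]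
    beta_reduce
    rw [show j + m + j - 1 - (j + m) + 1 = j by omega, h1b, ← h0b, Nat.sub_zero]
    have := h0.1 (j - 1) (by omega)
    rw [Nat.sub_add_cancel hj] at this
    exact this.symm)
  rwa [show j + m + j = 2 * j + m by ring] at this

/-- Two paths `a 0, …, a m` and `e 0, …, e m` whose ends are joined by paths of lengths `p` and
`q`. -/
theorem ladder_cycle {G : SimpleGraph V} {a e w0 wm : ℕ → V} {p q m : ℕ} (hp : 1 ≤ p)
    (hq : 1 ≤ q) (hm : 1 ≤ m) (ha : Seq G a (m + 1)) (he : Seq G e (m + 1))
    (h0 : Seq G w0 (p + 1)) (h00 : w0 0 = a 0) (h0e : w0 p = e 0)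
    (h1 : Seq G wm (q + 1)) (h10 : wm 0 = a m) (h1e : wm q = e m)
    (hae : ∀ i ≤ m, ∀ j ≤ m, a i ≠ e j) (hd : ∀ i ≤ p, ∀ j ≤ q, w0 i ≠ wm j)
    (ha0 : ∀ i, 1 ≤ i → i ≤ m → ∀ i' ≤ p, a i ≠ w0 i')
    (he0 : ∀ i, 1 ≤ i → i ≤ m → ∀ i' ≤ p, e i ≠ w0 i')
    (ham : ∀ i < m, ∀ i' ≤ q, a i ≠ wm i') (hem : ∀ i < m, ∀ i' ≤ q, e i ≠ wm i') :
    cycleGraph (p + q + 2 * m) ⊑ G := by
  have s1 : Seq G (rv w0 p) p := (h0.take (by omega)).rv
  have s2 : Seq G (fun i => a (i + 1)) m := ha.drop le_rfl
  have s3 : Seq G (fun i => wm (i + 1)) q := h1.drop le_rfl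
  have s4 : Seq G (rv e m) m := (he.take (by omega)).rv
  have s12 : Seq G (app (rv w0 p) p (fun i => a (i + 1))) (p + m) := by
    refine s1.app s2 hp ?_ ?_
    · unfold rv
      rw [Nat.sub_self, h00]
      exact ha.1 0 (by omega)
    · intro i hi i' hi'
      unfold rv
      exact (ha0 (i' + 1) (by omega) (by omega) _ (by omega)).symm
  have s123 : Seq G (app (app (rv w0 p) p (fun i => a (i + 1))) (p + m) (fun i => wm (i + 1)))
      (p + m + q) := by
    refine s12.app s3 (by omega) ?_ ?_
    · unfold app
      rw [if_neg (by omega)]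
      beta_reduce
      rw [show p + m - 1 - p + 1 = m by omega, ← h10]
      exact h1.1 0 (by omega)
    · intro i hi i' hi'
      refine app_ne (m := m) ?_ ?_ i hi
      · intro i hi
        unfold rv
        exact hd _ (by omega) _ (by omega)
      · intro i hi
        rcases Nat.lt_or_ge (i + 1) m with h2 | h2
        · exact ham _ h2 _ (by omega)
        · rw [show i + 1 = m by omega, ← h10]
          intro h
          have := h1.2 _ (by omega) _ (by omega) h
          omega
  have s : Seq G (app (app (app (rv w0 p) p (fun i => a (i + 1))) (p + m)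
      (fun i => wm (i + 1))) (p + m + q) (rv e m)) (p + m + q + m) := by
    refine s123.app s4 (by omega) ?_ ?_
    · unfold app
      rw [if_neg (by omega)]
      beta_reduce
      rw [show p + m + q - 1 - (p + m) + 1 = q by omega, h1e]
      unfold rv
      have := he.1 (m - 1) (by omega)
      rw [Nat.sub_add_cancel hm] at this
      exact this.symm
    · intro i hi i' hi'
      refine app_ne (m := q) ?_ ?_ i hi
      · refine app_ne (m := m) ?_ ?_
        · intro i hi
          unfold rv
          rcases Nat.eq_zero_or_pos (m - 1 - i') with h | h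
          · rw [h, ← h0e]
            intro h
            have := h0.2 _ (by omega) _ (by omega) h
            omega
          · exact (he0 _ h (by omega) _ (by omega)).symm
        · intro i hi
          exact hae _ (by omega) _ (by omega)
      · intro i hi
        exact (hem _ (by omega) _ (by omega)).symm
  have := cycle_of_seq s (by omega) (by
    unfold app rv
    rw [if_neg (by omega), if_pos (by omega), if_pos (by omega), if_pos (by omega),
      show m - 1 - (p + m + q + m - 1 - (p + m + q)) = 0 by omega, ← h0e, Nat.sub_zero]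
    have := h0.1 (p - 1) (by omega)
    rw [Nat.sub_add_cancel hp] at this
    exact this.symm)
  rwa [show p + m + q + m = p + q + 2 * m by ring] at this

end Pool.Agent.Y384.EC
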