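import Pool.Agent.Y384.EC.Split
import Pool.Agent.Y384.EC.Two

/-!
# Edges at the ends of the paths of length `j` with a common end
-/

set_option autoImplicit false

namespace Pool.Agent.Y384.EC

open Finset SimpleGraph

theorem count_T {V : Type*} [Fintype V] [DecidableEq V] (U : Finset V) (T : V → Finset V) (D : ℕ)
    (h : ∀ u, (T u).card ≤ D) : ∑ c : V, (U.filter (fun u => c ∈ T u)).card ≤ D * U.card := by
  have h1 : ∑ c : V, (U.filter (fun u => c ∈ T u)).card = ∑ u ∈ U, (T u).card := by
    simp only [card_filter]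
    rw [sum_comm]
    refine sum_congr rfl fun u _ => ?_
    rw [← card_filter]
    congr 1
    ext c
    simp
  rw [h1]
  refine (sum_le_card_nsmul _ _ D (fun u _ => h u)).trans ?_
  rw [smul_eq_mul, mul_comm]

theorem count_F {V : Type*} [Fintype V] [DecidableEq V] (F : Finset V) (g : V → V) :
    ∑ c : V, (F.filter (fun v => g v = c)).card = F.card := by
  rw [← card_eq_sum_card_fiberwise (f := g) (t := (univ : Finset V))]
  intro v _
  exact mem_coe.2 (mem_univ _)

/-- If the ends in `F` of the edges in `E` are joined to `b` by paths of length `j` then there are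
at most `K * (|U| + |F|)` edges. -/
def FanB {V : Type*} [Fintype V] [DecidableEq V] (G : SimpleGraph V) (j K : ℕ) : Prop :=
  ∀ (b : V) (W : V → ℕ → V) (E : Finset (V × V)) (U F : Finset V),
    (∀ p ∈ E, G.Adj p.1 p.2 ∧ p.1 ∈ U ∧ p.2 ∈ F) →
    (∀ v ∈ F, Seq G (W v) (j + 1) ∧ W v 0 = v ∧ W v j = b) → E.card ≤ K * (U.card + F.card)

theorem fan_sum {V : Type*} [Fintype V] [DecidableEq V] {G : SimpleGraph V} {i K : ℕ}
    (hK : FanB G i K) (W : V → ℕ → V) (E : Finset (V × V)) (U F : Finset V)
    (hE : ∀ p ∈ E, G.Adj p.1 p.2 ∧ p.1 ∈ U ∧ p.2 ∈ F)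
    (hW : ∀ v ∈ F, Seq G (W v) (i + 1) ∧ W v 0 = v) (T : V → Finset V) (D : ℕ)
    (hT : ∀ u, (T u).card ≤ D) :
    (E.filter (fun p => W p.2 i ∈ T p.1)).card ≤ K * (D * U.card + F.card) := by
  have h1 : E.filter (fun p => W p.2 i ∈ T p.1) ⊆
      univ.biUnion (fun c => E.filter (fun p => W p.2 i = c ∧ c ∈ T p.1)) := by
    intro p hp
    rw [mem_filter] at hp
    exact mem_biUnion.2 ⟨W p.2 i, mem_univ _, mem_filter.2 ⟨hp.1, rfl, hp.2⟩⟩
  refine (card_le_card h1).trans (card_biUnion_le.trans ?_)
  have h2 : ∀ c : V, (E.filter (fun p => W p.2 i = c ∧ c ∈ T p.1)).card ≤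
      K * ((U.filter (fun u => c ∈ T u)).card + (F.filter (fun v => W v i = c)).card) := by
    intro c
    apply hK c W
    · intro p hp
      rw [mem_filter] at hp
      have := hE p hp.1
      exact ⟨this.1, mem_filter.2 ⟨this.2.1, hp.2.2⟩, mem_filter.2 ⟨this.2.2, hp.2.1⟩⟩
    · intro v hv
      rw [mem_filter] at hv
      exact ⟨(hW v hv.1).1, (hW v hv.1).2, hv.2⟩
  refine (sum_le_sum fun c _ => h2 c).trans ?_
  rw [← mul_sum, sum_add_distrib, count_F]
  exact Nat.mul_le_mul_left _ (Nat.add_le_add_right (count_T U T D hT) _)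

/-- The size of the sets of labels. -/
def DD (k : ℕ) : ℕ := 2 * k * k + 1

/-- The base of the bound. -/
def BB (k : ℕ) : ℕ := DD k * (k + 1)

theorem BB_pos (k : ℕ) : 1 ≤ BB k := by
  unfold BB DD
  exact Nat.succ_le_of_lt (Nat.mul_pos (by omega) (by omega))

/-- The pairs in `E` in both directions, on `V × Bool`. -/
def sy {V : Type*} [DecidableEq V] (E : Finset (V × V)) : Finset ((V × Bool) × (V × Bool)) :=
  E.image (fun p => ((p.1, false), (p.2, true))) ∪ E.image (fun p => ((p.2, true), (p.1, false)))

theorem mem_sy {V : Type*} [DecidableEq V] {E : Finset (V × V)} {q : (V × Bool) × (V × Bool)} :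
    q ∈ sy E ↔ ∃ p ∈ E, q = ((p.1, false), (p.2, true)) ∨ q = ((p.2, true), (p.1, false)) := by
  unfold sy
  rw [mem_union, mem_image, mem_image]
  constructor
  · rintro (⟨p, hp, h⟩ | ⟨p, hp, h⟩)
    · exact ⟨p, hp, Or.inl h.symm⟩
    · exact ⟨p, hp, Or.inr h.symm⟩
  · rintro ⟨p, hp, h | h⟩
    · exact Or.inl ⟨p, hp, h.symm⟩
    · exact Or.inr ⟨p, hp, h.symm⟩

theorem sy_sym {V : Type*} [DecidableEq V] {E : Finset (V × V)} :
    ∀ q ∈ sy E, q.swap ∈ sy E := by
  intro q hq
  rw [mem_sy] at hq ⊢
  obtain ⟨p, hp, h | h⟩ := hq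
  · exact ⟨p, hp, Or.inr (by rw [h]; rfl)⟩
  · exact ⟨p, hp, Or.inl (by rw [h]; rfl)⟩

theorem sy_prop {V : Type*} [DecidableEq V] {G : SimpleGraph V} {E : Finset (V × V)}
    {U F : Finset V} (hE : ∀ p ∈ E, G.Adj p.1 p.2 ∧ p.1 ∈ U ∧ p.2 ∈ F) :
    ∀ q ∈ sy E, q.2.2 = !q.1.2 ∧ G.Adj q.1.1 q.2.1 ∧ (q.1.2 = true → q.1.1 ∈ F) ∧
      (q.1.2 = false → q.1.1 ∈ U) := by
  intro q hq
  rw [mem_sy] at hq
  obtain ⟨p, hp, h | h⟩ := hq
  · obtain ⟨h1, h2, h3⟩ := hE p hp
    subst h
    simp [h1, h2]
  · obtain ⟨h1, h2, h3⟩ := hE p hp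
    subst h
    simp [h1.symm, h3]

/-- Alternation in a greedy sequence. -/
theorem alt {V : Type*} {R : Finset ((V × Bool) × (V × Bool))}
    (hR : ∀ q ∈ R, q.2.2 = !q.1.2) {x : ℕ → V × Bool} {m : ℕ}
    (hx : ∀ i < m, (x i, x (i + 1)) ∈ R) :
    ∀ i ≤ m, (x i).2 = if i % 2 = 0 then (x 0).2 else !(x 0).2 := by
  intro i
  induction i with
  | zero => simp
  | succ i ih =>
    intro hi
    have h1 := hR _ (hx i (by omega))
    simp only at h1
    rw [h1, ih (by omega)]
    rcases Nat.mod_two_eq_zero_or_one i with h | h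
    · rw [if_pos h, if_neg (by omega)]
    · rw [if_neg (by omega), if_pos (by omega), Bool.not_not]

theorem fan (k : ℕ) {V : Type*} [Fintype V] [DecidableEq V] (G : SimpleGraph V)
    (hG : (cycleGraph (2 * k)).Free G) : ∀ j < k, FanB G j (BB k ^ j) := by
  intro j
  induction j using Nat.strong_induction_on with
  | _ j ih =>
  intro hjk b W E U F hE hW
  rcases Nat.eq_zero_or_pos j with hj | hj
  · subst hj
    have h1 : E.card ≤ U.card := by
      refine card_le_card_of_injOn (fun p => p.1) (fun p hp => (hE p hp).2.1) ?_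
      intro p hp q hq hpq
      have h3 := hW p.2 (hE p hp).2.2
      have h4 := hW q.2 (hE q hq).2.2
      exact Prod.ext hpq ((h3.2.1.symm.trans h3.2.2).trans (h4.2.1.symm.trans h4.2.2).symm)
    rw [pow_zero]
    omega
  · set L : V × Bool → Finset V := fun x =>
      if x.2 = true then (range j).image (W x.1) else {x.1} with hL
    have hLt : ∀ v, L (v, true) = (range j).image (W v) := fun v => by simp [hL]
    have hLf : ∀ v, L (v, false) = {v} := fun v => by simp [hL]
    have hprop := sy_prop hE
    rcases split L (DD k) _ (sy E) le_rfl sy_sym with h | h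
    · exfalso
      obtain ⟨R', hR', hne, hsym, hwide⟩ := h
      obtain ⟨p, hp, hpt⟩ : ∃ p ∈ R', p.1.2 = false := by
        obtain ⟨q, hq⟩ := hne
        rcases hb : q.1.2 with _ | _
        · exact ⟨q, hq, hb⟩
        · refine ⟨q.swap, hsym q hq, ?_⟩
          have := (hprop q (hR' hq)).1
          rw [hb] at this
          exact this
      have hM : ∀ x, (L x).card ≤ k := by
        intro x
        rw [hL]
        simp only
        split_ifs
        · refine card_image_le.trans ?_
          rw [card_range]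
          omega
        · rw [card_singleton]
          omega
      obtain ⟨x, h1, h2, h3, h4⟩ := greedy L (DD k) k R' hsym hwide hM {b} p hp (2 * (k - j)) (by
        rw [card_singleton]
        unfold DD
        have : 2 * (k - j) * k ≤ 2 * k * k := Nat.mul_le_mul_right _ (by omega)
        omega)
      have hx0 : (x 0).2 = true := by
        have := (hprop _ (hR' h1)).1
        simp only at this
        rw [this, hpt]
        rfl
      have halt := alt (R := sy E) (fun q hq => (hprop q hq).1) (fun i hi => hR' (h2 i hi))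
      have hF0 : (x 0).1 ∈ F := (hprop _ (hR' (h2 0 (by omega)))).2.2.1 hx0
      have hFm : (x (2 * (k - j))).1 ∈ F := by
        have h5 := hsym _ (h2 (2 * (k - j) - 1) (by omega))
        rw [Nat.sub_add_cancel (by omega)] at h5
        refine (hprop _ (hR' h5)).2.2.1 ?_
        have h6 := halt (2 * (k - j)) le_rfl
        rw [if_pos (by omega), hx0] at h6
        exact h6
      have hmem : ∀ i ≤ 2 * (k - j), (x i).1 ∈ L (x i) := by
        intro i hi
        rcases hb : (x i).2 with _ | _
        · have : x i = ((x i).1, false) := by rw [← hb]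
          rw [this, hLf]
          exact mem_singleton_self _
        · have : x i = ((x i).1, true) := by rw [← hb]
          have hFi : (x i).1 ∈ F := by
            rcases Nat.eq_zero_or_pos i with h0 | h0
            · subst h0
              exact hF0
            · have h5 := hsym _ (h2 (i - 1) (by omega))
              rw [Nat.sub_add_cancel h0] at h5
              exact (hprop _ (hR' h5)).2.2.1 hb
          rw [this, hLt]
          exact mem_image.2 ⟨0, mem_range.2 hj, (hW _ hFi).2.1⟩
      have hW0 : ∀ i < j, W (x 0).1 i ∈ L (x 0) := by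
        intro i hi
        have : x 0 = ((x 0).1, true) := by rw [← hx0]
        rw [this, hLt]
        exact mem_image.2 ⟨i, mem_range.2 hi, rfl⟩
      have hWm : ∀ i < j, W (x (2 * (k - j))).1 i ∈ L (x (2 * (k - j))) := by
        intro i hi
        have h6 := halt (2 * (k - j)) le_rfl
        rw [if_pos (by omega), hx0] at h6
        have : x (2 * (k - j)) = ((x (2 * (k - j))).1, true) := by rw [← h6]
        rw [this, hLt]
        exact mem_image.2 ⟨i, mem_range.2 hi, rfl⟩
      have hdis : ∀ i ≤ 2 * (k - j), ∀ i' ≤ 2 * (k - j), i ≠ i' → ∀ y ∈ L (x i),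
          ∀ z ∈ L (x i'), y ≠ z := by
        intro i hi i' hi' hne y hy z hz hyz
        subst hyz
        rcases Nat.lt_or_gt_of_ne hne with h | h
        · exact disjoint_left.1 (h4 i' hi' i h) hz hy
        · exact disjoint_left.1 (h4 i hi i' h) hy hz
      apply hG
      have := fan_cycle (G := G) (a := fun i => (x i).1) (w0 := W (x 0).1)
        (wm := W (x (2 * (k - j))).1) (j := j) (m := 2 * (k - j)) (b := b) hj (by omega)
        ⟨fun i hi => (hprop _ (hR' (h2 i (by omega)))).2.1, fun i hi i' hi' hii => by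
          by_contra hne
          exact hdis i (by omega) i' (by omega) hne _ (hmem i (by omega)) _
            (hmem i' (by omega)) hii⟩
        (hW _ hF0).1 (hW _ hF0).2.1 (hW _ hF0).2.2 (hW _ hFm).1 (hW _ hFm).2.1 (hW _ hFm).2.2
        (fun i hi i' hi' => hdis 0 (by omega) _ le_rfl (by omega) _ (hW0 i hi) _ (hWm i' hi'))
        (fun i hi h => disjoint_left.1 (h3 i hi) (hmem i hi) (mem_singleton.2 h))
        (fun i hi1 hi i' hi' => hdis i hi 0 (by omega) (by omega) _ (hmem i hi) _ (hW0 i' hi'))
        (fun i hi i' hi' => hdis i (by omega) _ le_rfl (by omega) _ (hmem i (by omega)) _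
          (hWm i' hi'))
      rwa [show 2 * j + 2 * (k - j) = 2 * k by omega] at this
    · obtain ⟨R1, T, hR1, hcov, hT, hbad⟩ := h
      have hsub : E ⊆ F.biUnion (fun v => (T (v, true)).image (fun u => (u, v))) ∪
          (range j).biUnion (fun i => E.filter (fun p => W p.2 i ∈ T (p.1, false))) := by
        intro p hp
        rcases hcov ((p.1, false), (p.2, true)) (mem_sy.2 ⟨p, hp, Or.inl rfl⟩) with h | h
        · have h1 := hbad _ h
          rw [hLt, not_disjoint_iff] at h1
          obtain ⟨c, hc, hc2⟩ := h1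
          obtain ⟨i, hi, rfl⟩ := mem_image.1 hc
          exact mem_union_right _ (mem_biUnion.2 ⟨i, hi, mem_filter.2 ⟨hp, hc2⟩⟩)
        · have h1 := hbad _ h
          simp only [Prod.swap] at h1
          rw [hLf, disjoint_singleton_left, not_not] at h1
          exact mem_union_left _ (mem_biUnion.2 ⟨p.2, (hE p hp).2.2,
            mem_image.2 ⟨p.1, h1, rfl⟩⟩)
      have hc1 : (F.biUnion (fun v => (T (v, true)).image (fun u => (u, v)))).card ≤
          DD k * F.card := by
        refine card_biUnion_le.trans ((sum_le_card_nsmul _ _ (DD k) fun v _ =>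
          card_image_le.trans (hT _)).trans ?_)
        rw [smul_eq_mul, mul_comm]
      have hB := BB_pos k
      have hc2 : ((range j).biUnion (fun i =>
          E.filter (fun p => W p.2 i ∈ T (p.1, false)))).card ≤
          j * (BB k ^ (j - 1) * (DD k * U.card + F.card)) := by
        refine card_biUnion_le.trans ((sum_le_card_nsmul _ _
          (BB k ^ (j - 1) * (DD k * U.card + F.card)) fun i hi => ?_).trans ?_)
        · have hij := mem_range.1 hi
          refine (fan_sum (ih i hij (by omega)) W E U F hE (fun v hv =>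
            ⟨(hW v hv).1.take (by omega), (hW v hv).2.1⟩) (fun u => T (u, false)) (DD k)
            (fun u => hT _)).trans ?_
          exact Nat.mul_le_mul_right _ (Nat.pow_le_pow_right hB (by omega))
        · rw [card_range, smul_eq_mul]
      have h3 : E.card ≤ DD k * F.card + j * (BB k ^ (j - 1) * (DD k * U.card + F.card)) :=
        (card_le_card hsub).trans ((card_union_le _ _).trans (Nat.add_le_add hc1 hc2))
      have hD1 : 1 ≤ DD k := by unfold DD; omega
      have h4 : 1 ≤ BB k ^ (j - 1) := Nat.one_le_pow _ _ hB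
      calc E.card ≤ DD k * F.card + j * (BB k ^ (j - 1) * (DD k * U.card + F.card)) := h3
        _ ≤ BB k ^ (j - 1) * DD k * (U.card + F.card) +
            j * (BB k ^ (j - 1) * DD k * (U.card + F.card)) := by
          refine Nat.add_le_add ?_ (Nat.mul_le_mul_left _ ?_)
          · have : DD k * F.card ≤ (BB k ^ (j - 1) * DD k) * (U.card + F.card) :=
              Nat.mul_le_mul (Nat.le_mul_of_pos_left _ h4) (by omega)
            exact this
          · rw [mul_assoc]
            refine Nat.mul_le_mul_left _ ?_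
            rw [mul_add]
            exact Nat.add_le_add_left (Nat.le_mul_of_pos_left _ hD1) _
        _ = BB k ^ (j - 1) * (DD k * (j + 1)) * (U.card + F.card) := by ring
        _ ≤ BB k ^ (j - 1) * BB k * (U.card + F.card) := by
          refine Nat.mul_le_mul_right _ (Nat.mul_le_mul_left _ ?_)
          unfold BB
          exact Nat.mul_le_mul_left _ (by omega)
        _ = BB k ^ j * (U.card + F.card) := by
          rw [← pow_succ, Nat.sub_add_cancel hj]

end Pool.Agent.Y384.EC
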