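import Pool.Agent.Y384.EC.Fan

/-!
# Maps that move the vertices along short paths
-/

set_option autoImplicit false

namespace Pool.Agent.Y384.EC

open Finset SimpleGraph

theorem fan_sum' {V : Type*} [Fintype V] [DecidableEq V] {G : SimpleGraph V} {i K : ℕ}
    (hK : FanB G i K) (W : V → ℕ → V) (E : Finset (V × V)) (U F : Finset V)
    (hE : ∀ p ∈ E, G.Adj p.1 p.2 ∧ p.1 ∈ U ∧ p.2 ∈ F)
    (hW : ∀ v ∈ U, Seq G (W v) (i + 1) ∧ W v 0 = v) (T : V → Finset V) (D : ℕ)
    (hT : ∀ u, (T u).card ≤ D) :
    (E.filter (fun p => W p.1 i ∈ T p.2)).card ≤ K * (D * F.card + U.card) := by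
  have h1 := fan_sum hK W (E.image Prod.swap) F U (by
    intro p hp
    obtain ⟨q, hq, rfl⟩ := mem_image.1 hp
    have := hE q hq
    exact ⟨this.1.symm, this.2.2, this.2.1⟩) hW T D hT
  refine le_trans ?_ h1
  refine card_le_card_of_injOn Prod.swap ?_ (fun p _ q _ h => Prod.swap_injective h)
  intro p hp
  rw [coe_filter, Set.mem_ofPred_eq] at hp ⊢
  exact ⟨mem_image_of_mem _ hp.1, hp.2⟩

/-- The side and the number of steps. -/
theorem choose_side (k r s : ℕ) (hr : 1 ≤ r) (hrk : r < k) (hsk : s < k)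
    (hcase : ¬ (r % 2 ≠ k % 2 ∧ s % 4 = (r + 2) % 4)) :
    ∃ (σ : Bool) (m : ℕ), 1 ≤ m ∧ m ≤ k ∧
      (if σ = true then s else r) +
        (if (if m % 2 = 0 then σ else !σ) = true then s else r) + 2 * m = 2 * k := by
  by_cases h1 : r % 2 = k % 2
  · refine ⟨false, k - r, by omega, by omega, ?_⟩
    rw [if_pos (show (k - r) % 2 = 0 by omega)]
    simp only [Bool.false_eq_true, if_false]
    omega
  · by_cases h2 : s % 2 = k % 2
    · refine ⟨true, k - s, by omega, by omega, ?_⟩
      rw [if_pos (show (k - s) % 2 = 0 by omega)]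
      simp only [if_true]
      omega
    · refine ⟨false, k - (r + s) / 2, by omega, by omega, ?_⟩
      rw [if_neg (show ¬ (k - (r + s) / 2) % 2 = 0 by omega)]
      simp only [Bool.false_eq_true, if_false, Bool.not_false, if_true]
      omega

theorem main_adj (k r s : ℕ) (hr : 1 ≤ r) (hs : 1 ≤ s) (hrk : r < k) (hsk : s < k)
    (hcase : ¬ (r % 2 ≠ k % 2 ∧ s % 4 = (r + 2) % 4))
    {V : Type*} [Fintype V] [DecidableEq V] (G : SimpleGraph V)
    (hG : (cycleGraph (2 * k)).Free G) (W W' : V → ℕ → V) (f g : V → V) (E : Finset (V × V))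
    (hE : ∀ p ∈ E, G.Adj p.1 p.2 ∧ G.Adj (f p.1) (g p.2) ∧
      (Seq G (W p.1) (r + 1) ∧ W p.1 0 = p.1 ∧ W p.1 r = f p.1) ∧
      (Seq G (W' p.2) (s + 1) ∧ W' p.2 0 = p.2 ∧ W' p.2 s = g p.2)) :
    E.card ≤ (r + s + 2) * (BB k ^ k * ((DD k + 1) * Fintype.card V)) := by
  classical
  set U : Finset V := univ.filter (fun u => Seq G (W u) (r + 1) ∧ W u 0 = u ∧ W u r = f u)
    with hU
  set F : Finset V := univ.filter (fun v => Seq G (W' v) (s + 1) ∧ W' v 0 = v ∧ W' v s = g v)
    with hF
  set ψ : V × Bool → V := fun x => if x.2 = true then g x.1 else f x.1 with hψ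
  have hEU : ∀ p ∈ E, G.Adj p.1 p.2 ∧ p.1 ∈ U ∧ p.2 ∈ F := by
    intro p hp
    obtain ⟨h1, h2, h3, h4⟩ := hE p hp
    exact ⟨h1, mem_filter.2 ⟨mem_univ _, h3⟩, mem_filter.2 ⟨mem_univ _, h4⟩⟩
  have hprop := sy_prop hEU
  have hpsi : ∀ q ∈ sy E, G.Adj (ψ q.1) (ψ q.2) := by
    intro q hq
    rw [mem_sy] at hq
    obtain ⟨p, hp, h | h⟩ := hq
    · rw [h, hψ]
      simp only [Bool.false_eq_true, if_false, if_true]
      exact (hE p hp).2.1
    · rw [h, hψ]
      simp only [Bool.false_eq_true, if_false, if_true]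
      exact (hE p hp).2.1.symm
  set Wt : V × Bool → ℕ → V := fun x => if x.2 = true then W' x.1 else W x.1 with hWt
  set len : Bool → ℕ := fun b => if b = true then s else r with hlen
  set L : V × Bool → Finset V := fun x => (range (len x.2 + 1)).image (Wt x) with hL
  have hlen1 : ∀ b, 1 ≤ len b := by
    intro b
    rw [hlen]
    simp only
    split_ifs <;> omega
  have hlenk : ∀ b, len b + 1 ≤ k := by
    intro b
    rw [hlen]
    simp only
    split_ifs <;> omega
  rcases split L (DD k) _ (sy E) le_rfl sy_sym with h | h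
  · exfalso
    obtain ⟨R', hR', hne, hsym, hwide⟩ := h
    obtain ⟨σ, m, hm1, hmk, hm⟩ := choose_side k r s hr hrk hsk hcase
    obtain ⟨p, hp, hpt⟩ : ∃ p ∈ R', p.1.2 = !σ := by
      obtain ⟨q, hq⟩ := hne
      rcases Bool.eq_or_eq_not q.1.2 (!σ) with hb | hb
      · exact ⟨q, hq, hb⟩
      · refine ⟨q.swap, hsym q hq, ?_⟩
        have := (hprop q (hR' hq)).1
        rw [hb, Bool.not_not] at this
        exact this
    have hM : ∀ x, (L x).card ≤ k := by
      intro x
      rw [hL]
      refine card_image_le.trans ?_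
      rw [card_range]
      exact hlenk _
    obtain ⟨x, h1, h2, h3, h4⟩ := greedy L (DD k) k R' hsym hwide hM ∅ p hp m (by
      rw [card_empty]
      unfold DD
      have : m * k ≤ 2 * k * k := Nat.mul_le_mul_right _ (by omega)
      omega)
    have hx0 : (x 0).2 = σ := by
      have := (hprop _ (hR' h1)).1
      simp only at this
      rw [this, hpt, Bool.not_not]
    have halt := alt (R := sy E) (fun q hq => (hprop q hq).1) (fun i hi => hR' (h2 i hi))
    have hok : ∀ i ≤ m, Seq G (Wt (x i)) (len (x i).2 + 1) ∧ Wt (x i) 0 = (x i).1 ∧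
        Wt (x i) (len (x i).2) = ψ (x i) := by
      intro i hi
      have hz : ∃ z, (x i, z) ∈ R' := by
        rcases Nat.eq_zero_or_pos i with h0 | h0
        · subst h0
          exact ⟨p.1, hsym _ h1⟩
        · have := hsym _ (h2 (i - 1) (by omega))
          rw [Nat.sub_add_cancel h0] at this
          exact ⟨x (i - 1), this⟩
      obtain ⟨z, hz⟩ := hz
      have h5 := hprop _ (hR' hz)
      rcases hb : (x i).2 with _ | _
      · have h6 := h5.2.2.2 hb
        have h7 := (mem_filter.1 h6).2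
        rw [hWt, hlen, hψ]
        simp only [hb, Bool.false_eq_true, if_false]
        exact h7
      · have h6 := h5.2.2.1 hb
        have h7 := (mem_filter.1 h6).2
        rw [hWt, hlen, hψ]
        simp only [hb, if_true]
        exact h7
    have hW : ∀ i, ∀ j ≤ len (x i).2, Wt (x i) j ∈ L (x i) := fun i j hj =>
      mem_image.2 ⟨j, mem_range.2 (by omega), rfl⟩
    have ha : ∀ i ≤ m, (x i).1 ∈ L (x i) := fun i hi => by
      rw [← (hok i hi).2.1]
      exact mem_image.2 ⟨0, mem_range.2 (by omega), rfl⟩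
    have he : ∀ i ≤ m, ψ (x i) ∈ L (x i) := fun i hi => by
      rw [← (hok i hi).2.2]
      exact mem_image.2 ⟨_, mem_range.2 (by omega), rfl⟩
    have hdis : ∀ i ≤ m, ∀ i' ≤ m, i ≠ i' → ∀ y ∈ L (x i), ∀ z ∈ L (x i'), y ≠ z := by
      intro i hi i' hi' hne y hy z hz hyz
      subst hyz
      rcases Nat.lt_or_gt_of_ne hne with h | h
      · exact disjoint_left.1 (h4 i' hi' i h) hz hy
      · exact disjoint_left.1 (h4 i hi i' h) hy hz
    have hend : (x m).2 = if m % 2 = 0 then σ else !σ := by
      rw [halt m le_rfl, hx0]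
    apply hG
    have hcyc := ladder_cycle (G := G) (a := fun i => (x i).1) (e := fun i => ψ (x i))
      (w0 := Wt (x 0)) (wm := Wt (x m)) (p := len (x 0).2) (q := len (x m).2) (m := m)
      (hlen1 _) (hlen1 _) hm1
      ⟨fun i hi => (hprop _ (hR' (h2 i (by omega)))).2.1, fun i hi i' hi' hii => by
        by_contra hne
        exact hdis i (by omega) i' (by omega) hne _ (ha i (by omega)) _ (ha i' (by omega)) hii⟩
      ⟨fun i hi => hpsi _ (hR' (h2 i (by omega))), fun i hi i' hi' hii => by
        by_contra hne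
        exact hdis i (by omega) i' (by omega) hne _ (he i (by omega)) _ (he i' (by omega)) hii⟩
      (hok 0 (by omega)).1 (hok 0 (by omega)).2.1 (hok 0 (by omega)).2.2
      (hok m le_rfl).1 (hok m le_rfl).2.1 (hok m le_rfl).2.2
      (by
        intro i hi j hj hij
        by_cases hne : i = j
        · subst hne
          have h5 : Wt (x i) 0 = Wt (x i) (len (x i).2) := by
            rw [(hok i hi).2.1, (hok i hi).2.2]
            exact hij
          have h6 := (hok i hi).1.2 0 (by omega) _ (by omega) h5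
          have h7 := hlen1 (x i).2
          omega
        · exact hdis i hi j hj hne _ (ha i hi) _ (he j hj) hij)
      (fun i hi j hj => hdis 0 (by omega) m le_rfl (by omega) _ (hW 0 i hi) _ (hW m j hj))
      (fun i hi1 hi i' hi' => hdis i hi 0 (by omega) (by omega) _ (ha i hi) _ (hW 0 i' hi'))
      (fun i hi1 hi i' hi' => hdis i hi 0 (by omega) (by omega) _ (he i hi) _ (hW 0 i' hi'))
      (fun i hi i' hi' => hdis i (by omega) m le_rfl (by omega) _ (ha i (by omega)) _
        (hW m i' hi'))
      (fun i hi i' hi' => hdis i (by omega) m le_rfl (by omega) _ (he i (by omega)) _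
        (hW m i' hi'))
    have hlast : len (x 0).2 + len (x m).2 + 2 * m = 2 * k := by
      rw [hx0, hend]
      exact hm
    rwa [hlast] at hcyc
  · obtain ⟨R1, T, hR1, hcov, hT, hbad⟩ := h
    have hLt : ∀ v, L (v, true) = (range (s + 1)).image (W' v) := fun v => by
      simp [hL, hlen, hWt]
    have hLf : ∀ v, L (v, false) = (range (r + 1)).image (W v) := fun v => by
      simp [hL, hlen, hWt]
    have hsub : E ⊆
        (range (s + 1)).biUnion (fun i => E.filter (fun p => W' p.2 i ∈ T (p.1, false))) ∪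
        (range (r + 1)).biUnion (fun i => E.filter (fun p => W p.1 i ∈ T (p.2, true))) := by
      intro p hp
      rcases hcov ((p.1, false), (p.2, true)) (mem_sy.2 ⟨p, hp, Or.inl rfl⟩) with h | h
      · have h1 := hbad _ h
        rw [hLt, not_disjoint_iff] at h1
        obtain ⟨c, hc, hc2⟩ := h1
        obtain ⟨i, hi, rfl⟩ := mem_image.1 hc
        exact mem_union_left _ (mem_biUnion.2 ⟨i, hi, mem_filter.2 ⟨hp, hc2⟩⟩)
      · have h1 := hbad _ h
        simp only [Prod.swap] at h1
        rw [hLf, not_disjoint_iff] at h1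
        obtain ⟨c, hc, hc2⟩ := h1
        obtain ⟨i, hi, rfl⟩ := mem_image.1 hc
        exact mem_union_right _ (mem_biUnion.2 ⟨i, hi, mem_filter.2 ⟨hp, hc2⟩⟩)
    have hB := BB_pos k
    have hUn : U.card ≤ Fintype.card V := card_le_univ _
    have hFn : F.card ≤ Fintype.card V := card_le_univ _
    have hc1 : ((range (s + 1)).biUnion (fun i =>
        E.filter (fun p => W' p.2 i ∈ T (p.1, false)))).card ≤
        (s + 1) * (BB k ^ k * ((DD k + 1) * Fintype.card V)) := by
      refine card_biUnion_le.trans ((sum_le_card_nsmul _ _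
        (BB k ^ k * ((DD k + 1) * Fintype.card V)) fun i hi => ?_).trans ?_)
      · have hij := mem_range.1 hi
        refine (fan_sum (fan k G hG i (by omega)) W' E U F hEU (fun v hv =>
          ⟨(mem_filter.1 hv).2.1.take (by omega), (mem_filter.1 hv).2.2.1⟩)
          (fun u => T (u, false)) (DD k) (fun u => hT _)).trans ?_
        refine Nat.mul_le_mul (Nat.pow_le_pow_right hB (by omega)) ?_
        rw [add_mul, one_mul]
        exact Nat.add_le_add (Nat.mul_le_mul_left _ hUn) hFn
      · rw [card_range, smul_eq_mul]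
    have hc2 : ((range (r + 1)).biUnion (fun i =>
        E.filter (fun p => W p.1 i ∈ T (p.2, true)))).card ≤
        (r + 1) * (BB k ^ k * ((DD k + 1) * Fintype.card V)) := by
      refine card_biUnion_le.trans ((sum_le_card_nsmul _ _
        (BB k ^ k * ((DD k + 1) * Fintype.card V)) fun i hi => ?_).trans ?_)
      · have hij := mem_range.1 hi
        refine (fan_sum' (fan k G hG i (by omega)) W E U F hEU (fun v hv =>
          ⟨(mem_filter.1 hv).2.1.take (by omega), (mem_filter.1 hv).2.2.1⟩)
          (fun u => T (u, true)) (DD k) (fun u => hT _)).trans ?_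
        refine Nat.mul_le_mul (Nat.pow_le_pow_right hB (by omega)) ?_
        rw [add_mul, one_mul]
        exact Nat.add_le_add (Nat.mul_le_mul_left _ hFn) hUn
      · rw [card_range, smul_eq_mul]
    calc E.card ≤ (s + 1) * (BB k ^ k * ((DD k + 1) * Fintype.card V)) +
          (r + 1) * (BB k ^ k * ((DD k + 1) * Fintype.card V)) :=
        (card_le_card hsub).trans ((card_union_le _ _).trans (Nat.add_le_add hc1 hc2))
      _ = (r + s + 2) * (BB k ^ k * ((DD k + 1) * Fintype.card V)) := by ring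

theorem main_eq (k s : ℕ) (hsk : s < k) {V : Type*} [Fintype V] [DecidableEq V]
    (G : SimpleGraph V) (hG : (cycleGraph (2 * k)).Free G) (W' : V → ℕ → V) (f g : V → V)
    (E : Finset (V × V)) (hE : ∀ p ∈ E, G.Adj p.1 p.2 ∧ f p.1 = g p.2 ∧
      (Seq G (W' p.2) (s + 1) ∧ W' p.2 0 = p.2 ∧ W' p.2 s = g p.2)) :
    E.card ≤ 2 * (BB k ^ k * Fintype.card V) := by
  classical
  set F : Finset V := univ.filter (fun v => Seq G (W' v) (s + 1) ∧ W' v 0 = v ∧ W' v s = g v)
    with hF
  have h1 := fan_sum (fan k G hG s hsk) W' E univ F (fun p hp => by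
      obtain ⟨h1, h2, h3⟩ := hE p hp
      exact ⟨h1, mem_univ _, mem_filter.2 ⟨mem_univ _, h3⟩⟩)
    (fun v hv => ⟨(mem_filter.1 hv).2.1, (mem_filter.1 hv).2.2.1⟩) (fun u => {f u}) 1
    (fun u => by rw [card_singleton])
  have h2 : E.filter (fun p => W' p.2 s ∈ ({f p.1} : Finset V)) = E := by
    refine filter_true_of_mem fun p hp => ?_
    obtain ⟨h1, h2, h3⟩ := hE p hp
    rw [mem_singleton, h3.2.2, h2]
  rw [h2] at h1
  have hFn : F.card ≤ Fintype.card V := card_le_univ _
  calc E.card ≤ BB k ^ s * (1 * (univ : Finset V).card + F.card) := h1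
    _ ≤ BB k ^ k * (2 * Fintype.card V) := by
      refine Nat.mul_le_mul (Nat.pow_le_pow_right (BB_pos k) hsk.le) ?_
      rw [card_univ]
      omega
    _ = 2 * (BB k ^ k * Fintype.card V) := by ring

end Pool.Agent.Y384.EC
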