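import Mathlib

/-!
# A splitting lemma for relations with labels, and greedy sequences
-/

set_option autoImplicit false

namespace Pool.Agent.Y384.EC

open Finset

/-- Splitting lemma. Let each point `x` carry a finite set `L x` of labels. A symmetric relation
contains a nonempty symmetric relation in which each point is wide (for each set `S` of at most `D`
labels it has a neighbour whose labels avoid `S`), or it is the union of `R1` and the converse of
`R1`, where the neighbours of each point `x` in `R1` have a label in a set `T x` of at most `D`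
labels. -/
theorem split {A V : Type*} [DecidableEq A] [DecidableEq V] (L : A → Finset V) (D : ℕ) :
    ∀ (N : ℕ) (R : Finset (A × A)), R.card ≤ N → (∀ p ∈ R, p.swap ∈ R) →
    (∃ R' ⊆ R, R'.Nonempty ∧ (∀ p ∈ R', p.swap ∈ R') ∧
      ∀ p ∈ R', ∀ S : Finset V, S.card ≤ D → ∃ y, (p.1, y) ∈ R' ∧ Disjoint (L y) S) ∨
    (∃ (R1 : Finset (A × A)) (T : A → Finset V), R1 ⊆ R ∧ (∀ p ∈ R, p ∈ R1 ∨ p.swap ∈ R1) ∧
      (∀ x, (T x).card ≤ D) ∧ ∀ p ∈ R1, ¬ Disjoint (L p.2) (T p.1)) := by
  intro N
  induction N with
  | zero =>
    intro R hR _
    right
    have : R = ∅ := card_eq_zero.mp (by omega)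
    subst this
    exact ⟨∅, fun _ => ∅, by simp⟩
  | succ N ih =>
    intro R hR hsym
    by_cases hwide : ∀ p ∈ R, ∀ S : Finset V, S.card ≤ D →
        ∃ y, (p.1, y) ∈ R ∧ Disjoint (L y) S
    · rcases R.eq_empty_or_nonempty with h | h
      · right
        subst h
        exact ⟨∅, fun _ => ∅, by simp⟩
      · left
        exact ⟨R, Subset.refl _, h, hsym, hwide⟩
    · push Not at hwide
      obtain ⟨p, hp, S, hS, hbad⟩ := hwide
      have hsub : R.filter (fun q => q.1 ≠ p.1 ∧ q.2 ≠ p.1) ⊆ R := filter_subset _ _
      have hlt : (R.filter (fun q => q.1 ≠ p.1 ∧ q.2 ≠ p.1)).card < R.card := by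
        apply card_lt_card
        refine ⟨hsub, fun h => ?_⟩
        have := h hp
        rw [mem_filter] at this
        exact this.2.1 rfl
      rcases ih (R.filter (fun q => q.1 ≠ p.1 ∧ q.2 ≠ p.1)) (by omega) (by
          intro q hq
          rw [mem_filter] at hq ⊢
          exact ⟨hsym q hq.1, hq.2.2, hq.2.1⟩) with h | h
      · obtain ⟨R', h1, h2⟩ := h
        exact Or.inl ⟨R', h1.trans hsub, h2⟩
      · right
        obtain ⟨R1, T, h1, h2, h3, h4⟩ := h
        refine ⟨R1 ∪ R.filter (fun q => q.1 = p.1), Function.update T p.1 S, ?_, ?_, ?_, ?_⟩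
        · exact union_subset (h1.trans hsub) (filter_subset _ _)
        · intro q hq
          by_cases hq1 : q.1 = p.1
          · left
            exact mem_union_right _ (mem_filter.2 ⟨hq, hq1⟩)
          · by_cases hq2 : q.2 = p.1
            · right
              exact mem_union_right _ (mem_filter.2 ⟨hsym q hq, hq2⟩)
            · rcases h2 q (mem_filter.2 ⟨hq, hq1, hq2⟩) with h | h
              · exact Or.inl (mem_union_left _ h)
              · exact Or.inr (mem_union_left _ h)
        · intro x
          by_cases hx : x = p.1
          · subst hx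
            simpa using hS
          · rw [Function.update_of_ne hx]
            exact h3 x
        · intro q hq
          rcases mem_union.1 hq with hq | hq
          · have h5 := (mem_filter.1 (h1 hq)).2.1
            rw [Function.update_of_ne h5]
            exact h4 q hq
          · rw [mem_filter] at hq
            rw [hq.2, Function.update_self]
            apply hbad
            rw [← hq.2]
            exact hq.1

/-- Greedy sequences in a relation in which each point is wide. -/
theorem greedy {A V : Type*} [DecidableEq A] [DecidableEq V] (L : A → Finset V) (D M : ℕ)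
    (R : Finset (A × A)) (hsym : ∀ p ∈ R, p.swap ∈ R)
    (hwide : ∀ p ∈ R, ∀ S : Finset V, S.card ≤ D → ∃ y, (p.1, y) ∈ R ∧ Disjoint (L y) S)
    (hM : ∀ x, (L x).card ≤ M) (S0 : Finset V) (p : A × A) (hp : p ∈ R) :
    ∀ m : ℕ, S0.card + m * M ≤ D → ∃ x : ℕ → A, (p.1, x 0) ∈ R ∧
      (∀ i < m, (x i, x (i + 1)) ∈ R) ∧ (∀ i ≤ m, Disjoint (L (x i)) S0) ∧
      (∀ i ≤ m, ∀ j < i, Disjoint (L (x i)) (L (x j))) := by
  intro m
  induction m with
  | zero =>
    intro hD
    obtain ⟨y, hy, hy2⟩ := hwide p hp S0 (by omega)
    refine ⟨fun _ => y, hy, by simp, ?_, ?_⟩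
    · intro i _
      exact hy2
    · intro i hi j hj
      omega
  | succ m ih =>
    intro hD
    obtain ⟨x, h1, h2, h3, h4⟩ := ih (by
      have : (m + 1) * M = m * M + M := by ring
      omega)
    have hz : ∃ z, (x m, z) ∈ R := by
      rcases Nat.eq_zero_or_pos m with hm | hm
      · subst hm
        exact ⟨p.1, hsym _ h1⟩
      · have := hsym _ (h2 (m - 1) (by omega))
        rw [Nat.sub_add_cancel hm] at this
        exact ⟨x (m - 1), this⟩
    obtain ⟨z, hz⟩ := hz
    obtain ⟨y, hy, hy2⟩ := hwide _ hz (S0 ∪ (range (m + 1)).biUnion (fun i => L (x i))) (by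
      refine (card_union_le _ _).trans ?_
      have : ((range (m + 1)).biUnion (fun i => L (x i))).card ≤ (m + 1) * M := by
        refine card_biUnion_le.trans ?_
        refine (sum_le_card_nsmul _ _ M (fun i _ => hM _)).trans ?_
        simp
      omega)
    rw [disjoint_union_right, disjoint_biUnion_right] at hy2
    refine ⟨Function.update x (m + 1) y, ?_, ?_, ?_, ?_⟩
    · rw [Function.update_of_ne (by omega)]
      exact h1
    · intro i hi
      rcases Nat.lt_or_ge i m with h | h
      · rw [Function.update_of_ne (by omega), Function.update_of_ne (by omega)]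
        exact h2 i h
      · have : i = m := by omega
        subst this
        rw [Function.update_of_ne (by omega), Function.update_self]
        exact hy
    · intro i hi
      rcases Nat.lt_or_ge i (m + 1) with h | h
      · rw [Function.update_of_ne (by omega)]
        exact h3 i (by omega)
      · have : i = m + 1 := by omega
        subst this
        rw [Function.update_self]
        exact hy2.1
    · intro i hi j hj
      rcases Nat.lt_or_ge i (m + 1) with h | h
      · rw [Function.update_of_ne (by omega), Function.update_of_ne (by omega)]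
        exact h4 i (by omega) j hj
      · have : i = m + 1 := by omega
        subst this
        rw [Function.update_self, Function.update_of_ne (by omega)]
        exact hy2.2 j (by simpa using hj)

end Pool.Agent.Y384.EC
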