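import Pool.Agent.Y384.EC.Main

/-!
# The theorem for walks, endomorphisms and relations closed under meets
-/

set_option autoImplicit false

namespace Pool.Agent.Y384.EC

open Finset SimpleGraph

/-- There is a path of length `r` from `u` to `v`. -/
def Joined {V : Type*} (G : SimpleGraph V) (r : ℕ) (u v : V) : Prop :=
  ∃ q : G.Walk u v, q.IsPath ∧ q.length = r

theorem Joined.seq {V : Type*} {G : SimpleGraph V} {r : ℕ} {u v : V} (h : Joined G r u v) :
    ∃ w : ℕ → V, Seq G w (r + 1) ∧ w 0 = u ∧ w r = v := by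
  obtain ⟨q, hq, hl⟩ := h
  refine ⟨q.getVert, ⟨fun i hi => q.adj_getVert_succ (by omega), fun i hi j hj hij => ?_⟩,
    q.getVert_zero, ?_⟩
  · exact hq.getVert_injOn (by rw [Set.mem_ofPred_eq]; omega) (by rw [Set.mem_ofPred_eq]; omega)
      hij
  · rw [← hl]
    exact q.getVert_length

/-- The pairs of neighbours `u`, `v` with `f u = g v` or `f u`, `g v` adjacent, such that there are
paths of length `r` from `u` to `f u` and of length `s` from `v` to `g v`. -/
def pairs {V : Type*} (G : SimpleGraph V) (r s : ℕ) (f g : V → V) : Set (V × V) :=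
  {p | G.Adj p.1 p.2 ∧ (f p.1 = g p.2 ∨ G.Adj (f p.1) (g p.2)) ∧
    Joined G r p.1 (f p.1) ∧ Joined G s p.2 (g p.2)}

/-- The constant. -/
def CC (k : ℕ) : ℕ := (2 * k + 4) * (BB k ^ k * (DD k + 1))

theorem walks (k r s : ℕ) (hr : 1 ≤ r) (hs : 1 ≤ s) (hrk : r < k) (hsk : s < k)
    (hcase : ¬ (r % 2 ≠ k % 2 ∧ s % 4 = (r + 2) % 4)) {V : Type*} [Finite V]
    (G : SimpleGraph V) (hG : (cycleGraph (2 * k)).Free G) (f g : V → V) :
    (pairs G r s f g).ncard ≤ CC k * Nat.card V := by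
  classical
  have := Fintype.ofFinite V
  have hW : ∀ u, ∃ w : ℕ → V, Joined G r u (f u) → Seq G w (r + 1) ∧ w 0 = u ∧ w r = f u := by
    intro u
    by_cases h : Joined G r u (f u)
    · obtain ⟨w, hw⟩ := h.seq
      exact ⟨w, fun _ => hw⟩
    · exact ⟨fun _ => u, fun h' => absurd h' h⟩
  have hW' : ∀ u, ∃ w : ℕ → V, Joined G s u (g u) → Seq G w (s + 1) ∧ w 0 = u ∧ w s = g u := by
    intro u
    by_cases h : Joined G s u (g u)
    · obtain ⟨w, hw⟩ := h.seq
      exact ⟨w, fun _ => hw⟩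
    · exact ⟨fun _ => u, fun h' => absurd h' h⟩
  choose W hW using hW
  choose W' hW' using hW'
  have h1 := main_adj k r s hr hs hrk hsk hcase G hG W W' f g
    (univ.filter (fun p => p ∈ pairs G r s f g ∧ G.Adj (f p.1) (g p.2))) (by
      intro p hp
      obtain ⟨-, hp, ha⟩ := mem_filter.1 hp
      exact ⟨hp.1, ha, hW _ hp.2.2.1, hW' _ hp.2.2.2⟩)
  have h2 := main_eq k s hsk G hG W' f g
    (univ.filter (fun p => p ∈ pairs G r s f g ∧ f p.1 = g p.2)) (by
      intro p hp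
      obtain ⟨-, hp, ha⟩ := mem_filter.1 hp
      exact ⟨hp.1, ha, hW' _ hp.2.2.2⟩)
  have h3 : (pairs G r s f g).ncard ≤
      (univ.filter (fun p => p ∈ pairs G r s f g ∧ G.Adj (f p.1) (g p.2)) ∪
        univ.filter (fun p => p ∈ pairs G r s f g ∧ f p.1 = g p.2)).card := by
    rw [Set.ncard_eq_toFinset_card']
    refine card_le_card fun p hp => ?_
    rw [Set.mem_toFinset] at hp
    rcases hp.2.1 with h | h
    · exact mem_union_right _ (mem_filter.2 ⟨mem_univ _, hp, h⟩)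
    · exact mem_union_left _ (mem_filter.2 ⟨mem_univ _, hp, h⟩)
  refine h3.trans ((card_union_le _ _).trans ((Nat.add_le_add h1 h2).trans ?_))
  rw [Nat.card_eq_fintype_card]
  unfold CC
  calc (r + s + 2) * (BB k ^ k * ((DD k + 1) * Fintype.card V)) +
        2 * (BB k ^ k * Fintype.card V)
      ≤ (2 * k + 2) * (BB k ^ k * ((DD k + 1) * Fintype.card V)) +
        2 * (BB k ^ k * ((DD k + 1) * Fintype.card V)) := by
        refine Nat.add_le_add (Nat.mul_le_mul_right _ (by omega)) (Nat.mul_le_mul_left _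
          (Nat.mul_le_mul_left _ (Nat.le_mul_of_pos_left _ (by omega))))
    _ = (2 * k + 4) * (BB k ^ k * (DD k + 1)) * Fintype.card V := by ring

/-- Endomorphisms. -/
theorem endo (k : ℕ) {V : Type*} [Finite V] (G : SimpleGraph V)
    (hG : (cycleGraph (2 * k)).Free G) (f : G →g G)
    (hf : ∀ v, (∃ w, G.Adj v w) → 1 ≤ G.dist v (f v) ∧ G.dist v (f v) < k) :
    {p : V × V | G.Adj p.1 p.2 ∧ ¬ (G.dist p.1 (f p.1) % 2 ≠ k % 2 ∧
      (G.dist p.1 (f p.1) = G.dist p.2 (f p.2) + 2 ∨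
        G.dist p.2 (f p.2) = G.dist p.1 (f p.1) + 2))}.ncard ≤ k * k * CC k * Nat.card V := by
  classical
  have := Fintype.ofFinite V
  have hsub : {p : V × V | G.Adj p.1 p.2 ∧ ¬ (G.dist p.1 (f p.1) % 2 ≠ k % 2 ∧
      (G.dist p.1 (f p.1) = G.dist p.2 (f p.2) + 2 ∨
        G.dist p.2 (f p.2) = G.dist p.1 (f p.1) + 2))}.toFinset ⊆
      ((range k ×ˢ range k).filter (fun rs => 1 ≤ rs.1 ∧ 1 ≤ rs.2 ∧
        ¬ (rs.1 % 2 ≠ k % 2 ∧ rs.2 % 4 = (rs.1 + 2) % 4))).biUnion
        (fun rs => (pairs G rs.1 rs.2 f f).toFinset) := by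
    intro p hp
    rw [Set.mem_toFinset] at hp
    obtain ⟨hadj, hn⟩ := hp
    have h1 := hf p.1 ⟨p.2, hadj⟩
    have h2 := hf p.2 ⟨p.1, hadj.symm⟩
    have hr1 : G.Reachable p.1 (f p.1) := Reachable.of_dist_ne_zero (by omega)
    have hr2 : G.Reachable p.2 (f p.2) := Reachable.of_dist_ne_zero (by omega)
    have j1 : Joined G (G.dist p.1 (f p.1)) p.1 (f p.1) := hr1.exists_path_of_dist
    have j2 : Joined G (G.dist p.2 (f p.2)) p.2 (f p.2) := hr2.exists_path_of_dist
    have hfa : G.Adj (f p.1) (f p.2) := f.map_adj hadj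
    have t1 : G.dist p.1 (f p.1) ≤ G.dist p.2 (f p.2) + 2 := by
      obtain ⟨q, -, hq⟩ := j2
      have := G.dist_le ((Walk.cons hadj q).append (Walk.cons hfa.symm Walk.nil))
      rw [Walk.length_append, Walk.length_cons, Walk.length_cons, Walk.length_nil, hq] at this
      omega
    have t2 : G.dist p.2 (f p.2) ≤ G.dist p.1 (f p.1) + 2 := by
      obtain ⟨q, -, hq⟩ := j1
      have := G.dist_le ((Walk.cons hadj.symm q).append (Walk.cons hfa Walk.nil))
      rw [Walk.length_append, Walk.length_cons, Walk.length_cons, Walk.length_nil, hq] at this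
      omega
    refine mem_biUnion.2 ⟨(G.dist p.1 (f p.1), G.dist p.2 (f p.2)), mem_filter.2
      ⟨mem_product.2 ⟨mem_range.2 h1.2, mem_range.2 h2.2⟩, h1.1, h2.1, ?_⟩, ?_⟩
    · rintro ⟨h3, h4⟩
      simp only at h3 h4
      exact hn ⟨h3, by omega⟩
    · rw [Set.mem_toFinset]
      exact ⟨hadj, Or.inr hfa, j1, j2⟩
  rw [Set.ncard_eq_toFinset_card']
  refine (card_le_card hsub).trans (card_biUnion_le.trans ((sum_le_card_nsmul _ _
    (CC k * Nat.card V) ?_).trans ?_))
  · intro rs hrs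
    obtain ⟨h1, h2, h3, h4⟩ := mem_filter.1 hrs
    obtain ⟨h5, h6⟩ := mem_product.1 h1
    rw [← Set.ncard_eq_toFinset_card']
    exact walks k rs.1 rs.2 h2 h3 (mem_range.1 h5) (mem_range.1 h6) h4 G hG f f
  · rw [smul_eq_mul, mul_assoc (k * k)]
    refine Nat.mul_le_mul_right _ ((card_filter_le _ _).trans ?_)
    rw [card_product, card_range]

/-- The bipartite graph of a relation. -/
def bip {X Y : Type*} (E : X → Y → Prop) : SimpleGraph (X ⊕ Y) where
  Adj a b := (∃ x y, a = Sum.inl x ∧ b = Sum.inr y ∧ E x y) ∨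
    (∃ x y, a = Sum.inr y ∧ b = Sum.inl x ∧ E x y)
  symm := by
    constructor
    rintro a b (⟨x, y, h1, h2, h3⟩ | ⟨x, y, h1, h2, h3⟩)
    · exact Or.inr ⟨x, y, h2, h1, h3⟩
    · exact Or.inl ⟨x, y, h2, h1, h3⟩
  loopless := by
    constructor
    rintro a (⟨x, y, h1, h2, h3⟩ | ⟨x, y, h1, h2, h3⟩)
    · rw [h1] at h2
      cases h2
    · rw [h1] at h2
      cases h2

/-- A relation between two finite meet semilattices which is closed under componentwise meets. -/
theorem meets (k : ℕ) (hk : 2 ≤ k) {X Y : Type*} [Finite X] [Finite Y] [SemilatticeInf X]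
    [SemilatticeInf Y] (E : X → Y → Prop)
    (hE : ∀ x y x' y', E x y → E x' y' → E (x ⊓ x') (y ⊓ y'))
    (hG : (cycleGraph (2 * k)).Free (bip E)) :
    {p : X × Y | E p.1 p.2}.ncard ≤ CC k * (Nat.card X + Nat.card Y) := by
  classical
  have := Fintype.ofFinite X
  have := Fintype.ofFinite Y
  -- the least neighbours
  have hx : ∀ x, (∃ y, E x y) → ∃ y0, E x y0 ∧ ∀ y, E x y → y0 ≤ y := by
    rintro x ⟨y, hy⟩
    have hne : (univ.filter (fun y => E x y)).Nonempty := ⟨y, mem_filter.2 ⟨mem_univ _, hy⟩⟩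
    refine ⟨(univ.filter (fun y => E x y)).inf' hne id, ?_, fun y hy => ?_⟩
    · exact Finset.inf'_mem {y | E x y} (fun a ha b hb => by
          have := hE x a x b ha hb
          rwa [inf_idem] at this) _ hne id (fun y hy => (mem_filter.1 hy).2)
    · exact Finset.inf'_le id (mem_filter.2 ⟨mem_univ _, hy⟩)
  have hy : ∀ y, (∃ x, E x y) → ∃ x0, E x0 y ∧ ∀ x, E x y → x0 ≤ x := by
    rintro y ⟨x, hx⟩
    have hne : (univ.filter (fun x => E x y)).Nonempty := ⟨x, mem_filter.2 ⟨mem_univ _, hx⟩⟩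
    refine ⟨(univ.filter (fun x => E x y)).inf' hne id, ?_, fun x hx => ?_⟩
    · exact Finset.inf'_mem {x | E x y} (fun a ha b hb => by
          have := hE a y b y ha hb
          rwa [inf_idem] at this) _ hne id (fun x hx => (mem_filter.1 hx).2)
    · exact Finset.inf'_le (s := univ.filter (fun x => E x y)) id
        (mem_filter.2 ⟨mem_univ _, hx⟩)
  have hφ : ∀ z : X ⊕ Y, ∃ z0 : X ⊕ Y,
      (∀ x, z = Sum.inl x → (∃ y, E x y) →
        ∃ y0, z0 = Sum.inr y0 ∧ E x y0 ∧ ∀ y, E x y → y0 ≤ y) ∧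
      (∀ y, z = Sum.inr y → (∃ x, E x y) →
        ∃ x0, z0 = Sum.inl x0 ∧ E x0 y ∧ ∀ x, E x y → x0 ≤ x) := by
    rintro (x | y)
    · by_cases h : ∃ y, E x y
      · obtain ⟨y0, h1, h2⟩ := hx x h
        refine ⟨Sum.inr y0, ?_, ?_⟩
        · intro x' hx' _
          cases hx'
          exact ⟨y0, rfl, h1, h2⟩
        · intro y hy'
          cases hy'
      · refine ⟨Sum.inl x, ?_, ?_⟩
        · intro x' hx' h'
          cases hx'
          exact absurd h' h
        · intro y hy'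
          cases hy'
    · by_cases h : ∃ x, E x y
      · obtain ⟨x0, h1, h2⟩ := hy y h
        refine ⟨Sum.inl x0, ?_, ?_⟩
        · intro x' hx'
          cases hx'
        · intro y' hy' _
          cases hy'
          exact ⟨x0, rfl, h1, h2⟩
      · refine ⟨Sum.inr y, ?_, ?_⟩
        · intro x' hx'
          cases hx'
        · intro y' hy' h'
          cases hy'
          exact absurd h' h
  choose φ hφ1 hφ2 using hφ
  have hone : ∀ a b : X ⊕ Y, (bip E).Adj a b → Joined (bip E) 1 a b := by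
    intro a b h
    refine ⟨Walk.cons h Walk.nil, ?_, rfl⟩
    rw [Walk.cons_isPath_iff]
    refine ⟨Walk.IsPath.nil, ?_⟩
    rw [Walk.support_nil, List.mem_singleton]
    exact h.ne
  have hmaps : ∀ p ∈ {p : X × Y | E p.1 p.2},
      ((Sum.inl p.1, Sum.inr p.2) : (X ⊕ Y) × (X ⊕ Y)) ∈ pairs (bip E) 1 1 φ φ := by
    rintro ⟨x, y⟩ hp
    have hp : E x y := hp
    obtain ⟨y0, h1, h2, h3⟩ := hφ1 _ x rfl ⟨y, hp⟩
    obtain ⟨x0, h4, h5, h6⟩ := hφ2 _ y rfl ⟨x, hp⟩
    have h7 : E x0 y0 := by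
      have := hE x y0 x0 y h2 h5
      rwa [inf_eq_right.2 (h6 x hp), inf_eq_left.2 (h3 y hp)] at this
    refine ⟨Or.inl ⟨x, y, rfl, rfl, hp⟩, Or.inr ?_, ?_, ?_⟩
    · simp only
      rw [h1, h4]
      exact Or.inr ⟨x0, y0, rfl, rfl, h7⟩
    · simp only
      rw [h1]
      exact hone _ _ (Or.inl ⟨x, y0, rfl, rfl, h2⟩)
    · simp only
      rw [h4]
      exact hone _ _ (Or.inr ⟨x0, y, rfl, rfl, h5⟩)
  have h1 := walks k 1 1 le_rfl le_rfl (by omega) (by omega) (by omega) (bip E) hG φ φ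
  rw [Nat.card_sum] at h1
  refine le_trans ?_ h1
  refine Set.ncard_le_ncard_of_injOn _ hmaps ?_ (Set.toFinite _)
  rintro ⟨x, y⟩ _ ⟨x', y'⟩ _ h
  have h2 := congrArg Prod.fst h
  have h3 := congrArg Prod.snd h
  exact Prod.ext (Sum.inl_injective h2) (Sum.inr_injective h3)

end Pool.Agent.Y384.EC
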